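import Pool.Agent.R910.Open.Defs

/-!
# Newton's identities, ideals and projective bundles
-/

universe v

namespace Pool.Agent.R910.Open

variable {A : Type v} [CommRing A] [Algebra ℚ A]

lemma mem_of_nat_mul_mem {I : Ideal A} {n : ℕ} (hn : n ≠ 0) {x : A} (h : (n : A) * x ∈ I) :
    x ∈ I := by
  have h1 := I.mul_mem_left (algebraMap ℚ A (n : ℚ)⁻¹) h
  rwa [← mul_assoc, show (n : A) = algebraMap ℚ A (n : ℚ) by rw [map_natCast], ← map_mul,
    inv_mul_cancel₀ (by exact_mod_cast hn), map_one, one_mul] at h1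

lemma chern_mem {r : ℕ} {c ch : ℕ → A} (h : IsChern r c ch) (I : Ideal A)
    (hI : ∀ i, 1 ≤ i → ch i ∈ I) (i : ℕ) (hi : 1 ≤ i) : c i ∈ I := by
  refine mem_of_nat_mul_mem (n := i) (by omega) ?_
  rw [h.newton i]
  exact I.sum_mem fun l _ => I.mul_mem_left _ (I.mul_mem_left _ (hI (l + 1) (by omega)))

lemma ch_mem {r : ℕ} {c ch : ℕ → A} (h : IsChern r c ch) (I : Ideal A)
    (hI : ∀ i, 1 ≤ i → c i ∈ I) (i : ℕ) (hi : 1 ≤ i) : ch i ∈ I := by
  obtain ⟨j, rfl⟩ : ∃ j, i = j + 1 := ⟨i - 1, by omega⟩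
  have h1 := h.newton (j + 1)
  rw [Finset.sum_range_succ, show j + 1 - 1 - j = 0 by omega, h.c_zero, mul_one] at h1
  have h2 : (-1) ^ j * ((((j + 1).factorial : ℕ) : A) * ch (j + 1)) ∈ I := by
    have h3 : (-1) ^ j * ((((j + 1).factorial : ℕ) : A) * ch (j + 1)) =
        ((j + 1 : ℕ) : A) * c (j + 1) - ∑ l ∈ Finset.range j,
          (-1) ^ l * c (j + 1 - 1 - l) * (((l + 1).factorial : ℕ) * ch (l + 1)) := by
      rw [h1]; ring
    rw [h3]
    refine I.sub_mem (I.mul_mem_left _ (hI _ (by omega))) (I.sum_mem fun l hl => ?_)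
    have hl' := Finset.mem_range.1 hl
    exact I.mul_mem_right _ (I.mul_mem_left _ (hI _ (by omega)))
  have h4 := I.mul_mem_left ((-1) ^ j) h2
  rw [← mul_assoc, ← mul_pow, neg_one_mul, neg_neg, one_pow, one_mul] at h4
  exact mem_of_nat_mul_mem (Nat.factorial_ne_zero _) h4

variable {B : Type v} [CommRing B] [Algebra ℚ B] {f : A →ₐ[ℚ] B} {g : B →ₗ[ℚ] A}

/-- The ideal `g (x · B)` of `A`. -/
def pushIdeal (f : A →ₐ[ℚ] B) (g : B →ₗ[ℚ] A) (hg : ∀ (b : B) (a : A), g (b * f a) = g b * a)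
    (x : B) : Ideal A where
  carrier := {a | ∃ y, a = g (x * y)}
  add_mem' := by
    rintro _ _ ⟨y, rfl⟩ ⟨z, rfl⟩
    exact ⟨y + z, by rw [mul_add, map_add]⟩
  zero_mem' := ⟨0, by rw [mul_zero, map_zero]⟩
  smul_mem' := by
    rintro a _ ⟨y, rfl⟩
    exact ⟨y * f a, by rw [smul_eq_mul, ← mul_assoc, hg, mul_comm]⟩

lemma chern_mem_pushIdeal {r : ℕ} {c ch : ℕ → A} {ξ : B} (hc : IsChern r c ch)
    (h : IsProjectiveBundle f g r c ξ) (hr : 1 ≤ r) (i : ℕ) (hi : 1 ≤ i) :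
    c i ∈ pushIdeal f g h.projection (ξ ^ r) := by
  rcases Nat.lt_or_ge r i with h1 | h1
  · rw [hc.c_eq_zero i h1]
    exact Ideal.zero_mem _
  have hp : ∀ (a : A) (b : B), g (f a * b) = a * g b := fun a b => by
    rw [mul_comm, h.projection, mul_comm]
  have h2 : ∑ l ∈ Finset.range (r + 1), c l * g (ξ ^ (r + (i - 1) - l)) = 0 := by
    have h3 := congrArg g (congrArg (fun x => x * ξ ^ (i - 1)) h.relation)
    simp only [zero_mul, map_zero, Finset.sum_mul, map_sum] at h3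
    rw [← h3]
    refine Finset.sum_congr rfl fun l hl => ?_
    have hl' := Finset.mem_range.1 hl
    rw [mul_assoc, hp, ← pow_add, show r - l + (i - 1) = r + (i - 1) - l by omega]
  have h4 : ∀ l ∈ Finset.range (r + 1), l ≠ i →
      c l * g (ξ ^ (r + (i - 1) - l)) ∈ pushIdeal f g h.projection (ξ ^ r) := by
    intro l hl hli
    rcases Nat.lt_or_ge l i with h5 | h5
    · refine Ideal.mul_mem_left _ _ ⟨ξ ^ (i - 1 - l), ?_⟩
      rw [← pow_add, show r + (i - 1 - l) = r + (i - 1) - l by omega]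
    · have hl' := Finset.mem_range.1 hl
      have h6 : g (ξ ^ (r + (i - 1) - l)) = 0 := h.push_low _ (by omega)
      rw [h6, mul_zero]
      exact Ideal.zero_mem _
  have h7 : g (ξ ^ (r + (i - 1) - i)) = 1 := by
    rw [show r + (i - 1) - i = r - 1 by omega]
    exact h.push_top
  rw [← Finset.add_sum_erase _ _ (Finset.mem_range.2 (show i < r + 1 by omega)), h7, mul_one,
    add_eq_zero_iff_eq_neg] at h2
  rw [h2]
  refine (Ideal.neg_mem_iff _).2 (Ideal.sum_mem _ fun l hl => ?_)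
  exact h4 l (Finset.mem_of_mem_erase hl) (Finset.ne_of_mem_erase hl)

/-- The class `w` and the power `ξ ^ r`. -/
lemma exists_power {r : ℕ} {c ch : ℕ → A} {ξ : B} (hc : IsChern r c ch)
    (h : IsProjectiveBundle f g r c ξ) (hr : 1 ≤ r) {p N : ℕ} (hp : 1 ≤ p) (hN : N ≠ 0) {w : A}
    (h1 : ch p = (N : A) * w) (h2 : ∀ i, 1 ≤ i → ch i ∈ Ideal.span {w}) :
    (∃ y, ξ ^ r = f w * y) ∧ ∃ z, w = g (ξ ^ r * z) := by
  have h3 : ∀ i, 1 ≤ i → c i ∈ Ideal.span {w} := chern_mem hc _ h2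
  have h4 := chern_mem_pushIdeal hc h hr
  have h5 : w ∈ pushIdeal f g h.projection (ξ ^ r) := by
    have := ch_mem hc _ h4 p hp
    rw [h1] at this
    exact mem_of_nat_mul_mem hN this
  have h6 : ξ ^ r ∈ Ideal.span {f w} := by
    have h7 := h.relation
    rw [Finset.sum_range_succ', Nat.sub_zero, hc.c_zero, map_one, one_mul, add_comm,
      add_eq_zero_iff_eq_neg] at h7
    rw [h7]
    refine (Ideal.neg_mem_iff _).2 (Ideal.sum_mem _ fun i _ => Ideal.mul_mem_right _ _ ?_)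
    obtain ⟨x, hx⟩ := Ideal.mem_span_singleton'.1 (h3 (i + 1) (by omega))
    rw [← hx, map_mul]
    exact Ideal.mul_mem_left _ _ (Ideal.mem_span_singleton_self _)
  obtain ⟨y, hy⟩ := Ideal.mem_span_singleton'.1 h6
  exact ⟨⟨y, by rw [← hy, mul_comm]⟩, h5⟩

end Pool.Agent.R910.Open
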