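import Mathlib

/-!
# Chow groups and Abel-Jacobi maps of smooth quasi-projective varieties: definitions
-/

open CategoryTheory AlgebraicGeometry

universe u v w w'

namespace Pool.Agent.R910.Open

section Alg

variable {A : Type v} [CommRing A] [Algebra ℚ A]

/-- The identities of Newton `i c_i = ∑_{l = 1}^i (-1)^(l-1) c_(i-l) p_l` between the elementary
symmetric functions `c` and the power sums `p_l = l! ch_l`. -/
def NewtonIdentities (c ch : ℕ → A) : Prop :=
  ∀ i : ℕ, (i : A) * c i =
    ∑ l ∈ Finset.range i, (-1) ^ l * c (i - 1 - l) * (((l + 1).factorial : ℕ) * ch (l + 1))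

/-- `c` and `ch` behave like the Chern classes and the components of the Chern character of a vector
bundle of rank `r`. -/
structure IsChern (r : ℕ) (c ch : ℕ → A) : Prop where
  c_zero : c 0 = 1
  c_eq_zero : ∀ i, r < i → c i = 0
  ch_zero : ch 0 = (r : A)
  newton : NewtonIdentities c ch

/-- `a` is the sum of `b` and `c`. -/
def IsSum (a b c : ℕ → A) : Prop :=
  ∀ i, a i = b i + c i

/-- `a` is the product of `b` and `c`, in terms of the homogeneous components. -/
def IsProduct (a b c : ℕ → A) : Prop :=
  ∀ i, a i = ∑ j ∈ Finset.range (i + 1), b j * c (i - j)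

/-- `a` is the number `m`, with components in degree zero only. -/
def IsConstant (m : ℕ) (a : ℕ → A) : Prop :=
  ∀ i, a i = if i = 0 then (m : A) else 0

/-- The component of degree `p` of `a - b` is `N` times `w`, and all other components are `0`. -/
def IsConcentrated (p N : ℕ) (w : A) (a b : ℕ → A) : Prop :=
  ∀ i, a i - b i = if i = p then (N : A) * w else 0

/-- The algebra homomorphism `f` and the linear map `g` behave like pull-back and push-forward for the
bundle of lines in a vector bundle of rank `r` with Chern classes `c`, and `ξ` behaves like the first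
Chern class of `O(1)`. -/
structure IsProjectiveBundle {B : Type v} [CommRing B] [Algebra ℚ B] (f : A →ₐ[ℚ] B)
    (g : B →ₗ[ℚ] A) (r : ℕ) (c : ℕ → A) (ξ : B) : Prop where
  projection : ∀ (b : B) (a : A), g (b * f a) = g b * a
  push_top : g (ξ ^ (r - 1)) = 1
  push_low : ∀ i, i < r - 1 → g (ξ ^ i) = 0
  relation : ∑ i ∈ Finset.range (r + 1), f (c i) * ξ ^ (r - i) = 0

end Alg

/-- The schemes over the field `k`. -/
abbrev Sch (k : Type u) [Field k] := Over (Spec (CommRingCat.of k))

/-- Data: for each scheme `X` over `k` the Chow ring `CH X` with rational coefficients, the subspaces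
`gr X p = CH^p(X)`, the vector bundles on `X` with their ranks, Chern classes and Chern characters;
pull-backs; the spaces of homologically trivial classes; the Abel-Jacobi maps, of which only the
values on homologically trivial classes matter. -/
structure OpenData (k : Type u) [Field k] where
  /-- the Chow ring -/
  CH : Sch k → Type v
  [ring : ∀ X, CommRing (CH X)]
  [algebra : ∀ X, Algebra ℚ (CH X)]
  /-- classes of codimension `p` -/
  gr : ∀ X, ℕ → Submodule ℚ (CH X)
  /-- pull-back -/
  pull : ∀ {X Y : Sch k}, (X ⟶ Y) → (CH Y →ₐ[ℚ] CH X)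
  /-- vector bundles -/
  Bun : Sch k → Type w
  /-- the rank -/
  rank : ∀ {X : Sch k}, Bun X → ℕ
  /-- the Chern classes -/
  c : ∀ {X : Sch k}, Bun X → ℕ → CH X
  /-- the components of the Chern character -/
  ch : ∀ {X : Sch k}, Bun X → ℕ → CH X
  /-- homologically trivial classes -/
  hom : ∀ X, Submodule ℚ (CH X)
  /-- the target of the Abel-Jacobi map -/
  J : Sch k → Type w'
  [group : ∀ X, AddCommGroup (J X)]
  /-- the Abel-Jacobi map -/
  aj : ∀ X : Sch k, CH X → J X

attribute [instance] OpenData.ring OpenData.algebra OpenData.group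

variable {k : Type u} [Field k]

/-- `a` is a class of codimension `p`. -/
def OpenData.IsCodim (C : OpenData.{u, v, w, w'} k) {X : Sch k} (p : ℕ) (a : C.CH X) : Prop :=
  a ∈ C.gr X p

/-- The class `a` is homologically trivial and its image under the Abel-Jacobi map is `x`. -/
def OpenData.HasImage (C : OpenData.{u, v, w, w'} k) {X : Sch k} (a : C.CH X) (x : C.J X) :
    Prop :=
  a ∈ C.hom X ∧ C.aj X a = x

/-- The class `a` is homologically trivial and in the kernel of the Abel-Jacobi map. -/
def OpenData.AJTriv (C : OpenData.{u, v, w, w'} k) {X : Sch k} (a : C.CH X) : Prop :=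
  C.HasImage a 0

/-- The map `φ` of classes, from `X` to `Y`, is compatible with the Abel-Jacobi maps: there is a
homomorphism `ψ` from `J X` to `J Y` such that `φ a` has the image `ψ x` if `a` has the image `x`. -/
def OpenData.AJCompatible (C : OpenData.{u, v, w, w'} k) {X Y : Sch k} (φ : C.CH X → C.CH Y) :
    Prop :=
  ∃ ψ : C.J X →+ C.J Y, ∀ (a : C.CH X) (x : C.J X), C.HasImage a x → C.HasImage (φ a) (ψ x)

/-- The vector bundles on `X` have these known properties.
* direct sums and tensor products exist, and the Chern character is additive and multiplicative;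
* for each `V` there are a line bundle `L` and a vector bundle `Q` such that `V ⊗ L` and `Q` are the
  sub-bundle and the quotient in an exact sequence whose middle term is trivial;
* the Chern character is an isomorphism from `K_0(X)` to `CH(X)`, rationally: each class of
  codimension `p` has a multiple which is the Chern character of a virtual bundle. -/
structure OpenData.HasBundles (C : OpenData.{u, v, w, w'} k) (X : Sch k) : Prop where
  chern : ∀ V : C.Bun X, IsChern (C.rank V) (C.c V) (C.ch V)
  sum : ∀ V V' : C.Bun X, ∃ U : C.Bun X, IsSum (C.ch U) (C.ch V) (C.ch V')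
  tensor : ∀ V V' : C.Bun X, ∃ U : C.Bun X, IsProduct (C.ch U) (C.ch V) (C.ch V')
  embed : ∀ V : C.Bun X, ∃ (L Q : C.Bun X) (m : ℕ) (a t : ℕ → C.CH X), C.rank L = 1 ∧
    IsProduct a (C.ch V) (C.ch L) ∧ IsSum t a (C.ch Q) ∧ IsConstant m t
  chern_onto : ∀ (p : ℕ) (w : C.CH X), C.IsCodim p w →
    ∃ (V V' : C.Bun X) (N : ℕ), N ≠ 0 ∧ IsConcentrated p N w (C.ch V) (C.ch V')

/-- `P` is the bundle of lines in the vector bundle `V` on `X`, with the morphism `q`: there are a
push-forward `g` and a divisor class `ξ` with the usual properties. -/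
def OpenData.IsBundleOfLines (C : OpenData.{u, v, w, w'} k) {X P : Sch k} (V : C.Bun X)
    (q : P ⟶ X) : Prop :=
  ∃ (g : C.CH P →ₗ[ℚ] C.CH X) (ξ : C.CH P), C.IsCodim 1 ξ ∧
    IsProjectiveBundle (C.pull q) g (C.rank V) (C.c V) ξ

/-- The class `𝒬` of schemes behaves like the class of smooth quasi-projective varieties over `k`.
* the Abel-Jacobi maps are compatible with pull-backs and with products with classes of cycles, and
  pull-backs respect codimensions;
* there are vector bundles with the known properties, and their bundles of lines are in `𝒬`;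
* each `X` in `𝒬` has a torsor `A ⟶ X` under a vector bundle such that `A` is affine and in `𝒬`
  (Jouanolou's trick), so that the pull-back from `CH X` to `CH A` is injective. -/
structure OpenData.IsQuasiProjective (C : OpenData.{u, v, w, w'} k) (𝒬 : Set (Sch k)) :
    Prop where
  aj_pull : ∀ {X Y : Sch k} (f : X ⟶ Y), X ∈ 𝒬 → Y ∈ 𝒬 → C.AJCompatible (C.pull f)
  aj_mul : ∀ {X : Sch k} (b : C.CH X), X ∈ 𝒬 → C.AJCompatible fun a : C.CH X => a * b
  pull_codim : ∀ {X Y : Sch k} (f : X ⟶ Y) {p : ℕ} {a : C.CH Y}, X ∈ 𝒬 → Y ∈ 𝒬 →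
    C.IsCodim p a → C.IsCodim p (C.pull f a)
  pow_codim : ∀ {X : Sch k} {D : C.CH X} (r : ℕ), X ∈ 𝒬 → C.IsCodim 1 D → C.IsCodim r (D ^ r)
  bundles : ∀ X ∈ 𝒬, C.HasBundles X
  lines : ∀ X ∈ 𝒬, ∀ V : C.Bun X, 1 ≤ C.rank V → ∃ P ∈ 𝒬, ∃ q : P ⟶ X, C.IsBundleOfLines V q
  jouanolou : ∀ X ∈ 𝒬, ∃ A ∈ 𝒬, IsAffine A.left ∧ ∃ g : A ⟶ X, Function.Injective (C.pull g)

/-- The Abel-Jacobi map is injective for `X`, in positive codimension. -/
def OpenData.AJInjective (C : OpenData.{u, v, w, w'} k) (X : Sch k) : Prop :=
  ∀ (p : ℕ) (a : C.CH X), 1 ≤ p → C.IsCodim p a → C.AJTriv a → a = 0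

/-- If a power `D ^ r`, `r ≥ 1`, of a divisor class on `X` is in the kernel of the Abel-Jacobi map, then
it is `0`. -/
def OpenData.AJInjectiveOnPowers (C : OpenData.{u, v, w, w'} k) (X : Sch k) : Prop :=
  ∀ (D : C.CH X) (r : ℕ), 1 ≤ r → C.IsCodim 1 D → C.AJTriv (D ^ r) → D ^ r = 0

end Pool.Agent.R910.Open
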