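import Pool.Agent.R910.Open.Alg

/-!
# The Abel-Jacobi map on smooth quasi-projective varieties and powers of divisors on affine varieties
-/

open CategoryTheory AlgebraicGeometry

universe u v w w'

namespace Pool.Agent.R910.Open

variable {k : Type u} [Field k] {C : OpenData.{u, v, w, w'} k} {X Y : Sch k}

/-- For each class `w` of positive codimension there is a vector bundle `U` such that `w` generates
the ideal of the components of positive degree of the Chern character of `U`. -/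
lemma exists_bundle (hB : C.HasBundles X) {p : ℕ} (hp : 1 ≤ p) {w : C.CH X}
    (hw : C.IsCodim p w) : ∃ (U : C.Bun X) (N : ℕ), N ≠ 0 ∧ C.ch U p = (N : C.CH X) * w ∧
      ∀ i, 1 ≤ i → C.ch U i ∈ Ideal.span {w} := by
  obtain ⟨V, V', N, hN, h1⟩ := hB.chern_onto p w hw
  obtain ⟨L, Q, m, a, t, hL, ha, ht, hm⟩ := hB.embed V'
  obtain ⟨VL, hVL⟩ := hB.tensor V L
  obtain ⟨U, hU⟩ := hB.sum VL Q
  have h2 : ∀ i, C.ch U i = (if i = 0 then (m : C.CH X) else 0) +
      ∑ j ∈ Finset.range (i + 1), (if j = p then (N : C.CH X) * w else 0) * C.ch L (i - j) := by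
    intro i
    rw [hU i, hVL i, ← hm i, ht i, ha i]
    have h3 : ∀ j, C.ch V j = C.ch V' j + if j = p then (N : C.CH X) * w else 0 := fun j => by
      rw [← h1 j]; ring
    simp only [h3, add_mul, Finset.sum_add_distrib]
    ring
  refine ⟨U, N, hN, ?_, fun i hi => ?_⟩
  · rw [h2 p, if_neg (by omega), zero_add, Finset.sum_eq_single p]
    · rw [if_pos rfl, Nat.sub_self, (hB.chern L).ch_zero, hL, Nat.cast_one, mul_one]
    · intro j _ hj
      rw [if_neg hj, zero_mul]
    · intro h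
      exact absurd (Finset.mem_range.2 (by omega)) h
  · rw [h2 i, if_neg (by omega), zero_add]
    refine Ideal.sum_mem _ fun j _ => Ideal.mul_mem_right _ _ ?_
    split_ifs
    · exact Ideal.mul_mem_left _ _ (Ideal.mem_span_singleton_self w)
    · exact Ideal.zero_mem _

lemma ajTriv_of {φ : C.CH X → C.CH Y} (h : C.AJCompatible φ) {a : C.CH X}
    (ha : C.AJTriv a) : C.AJTriv (φ a) := by
  obtain ⟨ψ, hψ⟩ := h
  have := hψ a 0 ha
  rwa [map_zero] at this

/-- **The Abel-Jacobi map on open varieties and powers of divisors on affine varieties.** -/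
theorem ajInjective_tfae {𝒬 : Set (Sch k)} (h𝒬 : C.IsQuasiProjective 𝒬) :
    List.TFAE [
      ∀ X ∈ 𝒬, C.AJInjective X,
      ∀ A ∈ 𝒬, IsAffine A.left → C.AJInjective A,
      ∀ A ∈ 𝒬, IsAffine A.left → C.AJInjectiveOnPowers A] := by
  tfae_have 1 → 2 := fun h A hA _ => h A hA
  tfae_have 2 → 3 := fun h A hA hAff D r hr hD =>
    h A hA hAff r (D ^ r) hr (h𝒬.pow_codim r hA hD)
  tfae_have 3 → 1 := by
    intro h X hX p w hp hw hT
    obtain ⟨U, N, hN, h1, h2⟩ := exists_bundle (h𝒬.bundles X hX) hp hw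
    have hc := (h𝒬.bundles X hX).chern U
    rcases Nat.eq_zero_or_pos (C.rank U) with h0 | h0
    · have h4 : ∀ i, 1 ≤ i → C.c U i ∈ (⊥ : Ideal (C.CH X)) := fun i hi => by
        rw [hc.c_eq_zero i (by omega)]
        exact Ideal.zero_mem _
      have := ch_mem hc _ h4 p hp
      rw [h1] at this
      exact Ideal.mem_bot.1 (mem_of_nat_mul_mem hN this)
    obtain ⟨P, hP, q, g, ξ, hξ, hq⟩ := h𝒬.lines X hX U h0
    obtain ⟨⟨y, hy⟩, z, hz⟩ := exists_power hc hq h0 hp hN h1 h2
    obtain ⟨A, hA, hAff, e, he⟩ := h𝒬.jouanolou P hP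
    have h5 : C.AJTriv (ξ ^ C.rank U) := by
      rw [hy]
      exact ajTriv_of (h𝒬.aj_mul y hP) (ajTriv_of (h𝒬.aj_pull q hP hX) hT)
    have h6 : C.AJTriv (C.pull e ξ ^ C.rank U) := by
      rw [← map_pow]
      exact ajTriv_of (h𝒬.aj_pull e hA hP) h5
    have h7 := h A hA hAff (C.pull e ξ) (C.rank U) h0 (h𝒬.pull_codim e hA hP hξ) h6
    rw [← map_pow] at h7
    have h8 : ξ ^ C.rank U = 0 := he (by rw [h7, map_zero])
    rw [hz, h8, zero_mul, map_zero]
  tfae_finish

end Pool.Agent.R910.Open
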